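import Mathlib
import Pool.Agent.Helper12.LW.Defs

/-! M5 (feasibility): the weighted slack form is at most one. -/

namespace Pool.Agent.Helper74.LW

open Matrix Pool.Agent.Helper12.LW

theorem core_aux (a b c x y z s t : ℝ) (ha : 0 ≤ a) (hb : 0 ≤ b) (hc : 0 ≤ c) (hx : 0 ≤ x) (hy : 0 ≤ y)
    (hz : 0 ≤ z) (hs : a + b + c = s) (ht : x + y + z = t) :
    (x - a) ^ 2 + (y - b) ^ 2 + (z - c) ^ 2 ≤ s ^ 2 + t ^ 2 := by
  subst hs ht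
  nlinarith [mul_nonneg ha hx, mul_nonneg hb hy, mul_nonneg hc hz, mul_nonneg ha hb, mul_nonneg ha hc,
    mul_nonneg hb hc, mul_nonneg hx hy, mul_nonneg hx hz, mul_nonneg hy hz]

theorem core (p0 p1 p2 p3 q0 q1 q2 q3 ρ : ℝ) (hp0 : 0 ≤ p0) (hp1 : 0 ≤ p1) (hp2 : 0 ≤ p2) (hp3 : 0 ≤ p3)
    (hq0 : 0 ≤ q0) (hq1 : 0 ≤ q1) (hq2 : 0 ≤ q2) (hq3 : 0 ≤ q3) (hp : p0 + p1 + p2 + p3 = 1)
    (hq : q0 + q1 + q2 + q3 = 1) (hρ0 : 0 < ρ) (hpρ : p0 ≤ ρ) (hqρ : q0 ≤ ρ) :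
    (2 - ρ) / (2 * ρ) * (q0 - p0) ^ 2 + 1 / 2 * (q1 - p1) ^ 2 + 1 / 2 * (q2 - p2) ^ 2
      + 1 / 2 * (q3 - p3) ^ 2 ≤ 1 := by
  have h1 := core_aux p1 p2 p3 q1 q2 q3 (1 - p0) (1 - q0) hp1 hp2 hp3 hq1 hq2 hq3 (by linarith) (by linarith)
  have h2 : (2 - ρ) / (2 * ρ) * (q0 - p0) ^ 2 = (q0 - p0) ^ 2 / ρ - (q0 - p0) ^ 2 / 2 := by
    field_simp
  have h3 : (q0 - p0) ^ 2 / ρ ≤ |q0 - p0| := by
    rw [div_le_iff₀ hρ0, ← sq_abs]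
    have h4 : |q0 - p0| ≤ ρ := by
      rw [abs_le]
      constructor <;> linarith
    nlinarith [abs_nonneg (q0 - p0)]
  rw [h2]
  rcases le_total p0 q0 with h | h
  · rw [abs_of_nonneg (by linarith)] at h3
    nlinarith [mul_nonneg hp0 (sub_nonneg.mpr h)]
  · rw [abs_of_nonpos (by linarith)] at h3
    nlinarith [mul_nonneg hq0 (sub_nonneg.mpr h)]

/-- M5 (feasibility): the weighted slack form. -/
theorem feas (K : Set (Fin 3 → ℝ)) (P : Fin 4 → Fin 3 → ℤ) (v : Fin 4 → Fin 3 → ℝ)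
    (hv : Sep4 K P v) (k : Fin 4) (ρ : ℝ) (hρ0 : 0 < ρ) (_hρ1 : ρ ≤ 1)
    (hk : ∀ x ∈ K, v k ⬝ᵥ (toR (P k) - x) ≤ ρ) :
    ∀ x ∈ K, ∀ x' ∈ K, ∑ j, (if j = k then (2 - ρ) / (2 * ρ) else 1 / 2) * (v j ⬝ᵥ (x - x')) ^ 2 ≤ 1 := by
  intro x hx x' hx'
  have hsum : ∀ y : Fin 3 → ℝ, ∑ j, v j ⬝ᵥ (toR (P j) - y) = 1 := by
    intro y
    have h1 : ∀ j, v j ⬝ᵥ (toR (P j) - y) = v j ⬝ᵥ toR (P j) - v j ⬝ᵥ y := fun j => dotProduct_sub _ _ _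
    simp only [h1, Finset.sum_sub_distrib, hv.norm_one]
    rw [← sum_dotProduct, hv.sum_zero]
    simp
  have hnn : ∀ y ∈ K, ∀ j, 0 ≤ v j ⬝ᵥ (toR (P j) - y) := by
    intro y hy j
    rw [dotProduct_sub]
    linarith [hv.sep j y hy]
  have hd : ∀ j, v j ⬝ᵥ (x - x') = v j ⬝ᵥ (toR (P j) - x') - v j ⬝ᵥ (toR (P j) - x) := by
    intro j
    simp only [dotProduct_sub]
    ring
  simp only [hd]
  have hp := hsum x
  have hq := hsum x'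
  have hpn := hnn x hx
  have hqn := hnn x' hx'
  have hpk := hk x hx
  have hqk := hk x' hx'
  set p : Fin 4 → ℝ := fun j => v j ⬝ᵥ (toR (P j) - x) with hpdef
  set q : Fin 4 → ℝ := fun j => v j ⬝ᵥ (toR (P j) - x') with hqdef
  change ∑ j, (if j = k then (2 - ρ) / (2 * ρ) else 1 / 2) * (q j - p j) ^ 2 ≤ 1
  change ∑ j, p j = 1 at hp
  change ∑ j, q j = 1 at hq
  change ∀ j, 0 ≤ p j at hpn
  change ∀ j, 0 ≤ q j at hqn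
  change p k ≤ ρ at hpk
  change q k ≤ ρ at hqk
  clear_value p q
  rw [Fin.sum_univ_four] at hp hq ⊢
  fin_cases k
  · have := core (p 0) (p 1) (p 2) (p 3) (q 0) (q 1) (q 2) (q 3) ρ (hpn 0) (hpn 1) (hpn 2) (hpn 3) (hqn 0)
      (hqn 1) (hqn 2) (hqn 3) (by linarith) (by linarith) hρ0 hpk hqk
    simp
    norm_num at this
    linarith
  · have := core (p 1) (p 0) (p 2) (p 3) (q 1) (q 0) (q 2) (q 3) ρ (hpn 1) (hpn 0) (hpn 2) (hpn 3) (hqn 1)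
      (hqn 0) (hqn 2) (hqn 3) (by linarith) (by linarith) hρ0 hpk hqk
    simp
    norm_num at this
    linarith
  · have := core (p 2) (p 0) (p 1) (p 3) (q 2) (q 0) (q 1) (q 3) ρ (hpn 2) (hpn 0) (hpn 1) (hpn 3) (hqn 2)
      (hqn 0) (hqn 1) (hqn 3) (by linarith) (by linarith) hρ0 hpk hqk
    simp
    norm_num at this
    linarith
  · have := core (p 3) (p 0) (p 1) (p 2) (q 3) (q 0) (q 1) (q 2) ρ (hpn 3) (hpn 0) (hpn 1) (hpn 2) (hqn 3)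
      (hqn 0) (hqn 1) (hqn 2) (by linarith) (by linarith) hρ0 hpk hqk
    simp
    norm_num at this
    linarith

end Pool.Agent.Helper74.LW
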